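import Pool.Agent.Lib.MP_528c50_co.Cs3.Main
import Pool.Agent.Lib.MP_528c50_co.Cs3.Gal

/-!
# Endpoint reconstruction when the prime parts of the core have short irredundant sequences
-/

namespace Pool.Agent.Results.MP_528c50_co.SplitSymmetry

/-- The 2-core: the union of all vertex sets in which every vertex has two neighbours. -/
def core {V : Type} (G : SimpleGraph V) : Set V :=
  {v | ∃ S : Set V, v ∈ S ∧ ∀ u ∈ S, ∃ a ∈ S, ∃ b ∈ S, a ≠ b ∧ G.Adj u a ∧ G.Adj u b}

/-- `A` and `S \ A` form a split of the graph induced on `S`: the edges between the two sides are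
all the pairs between their ends. -/
def Split {K : Type} (X : SimpleGraph K) (S A : Set K) : Prop :=
  ∀ a ∈ A, ∀ a' ∈ A, ∀ b ∈ S \ A, ∀ b' ∈ S \ A, X.Adj a b → X.Adj a' b' → X.Adj a b'

/-- `S` has at least four vertices, and every split of the graph induced on `S` has a side with at
most one vertex. -/
def SplitPrime {K : Type} (X : SimpleGraph K) (S : Set K) : Prop :=
  4 ≤ S.ncard ∧ ∀ A ⊆ S, Split X S A → A.Subsingleton ∨ (S \ A).Subsingleton

/-- Let every vertex of `G` be joined to the core. For every split-prime set `S` of vertices of the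
core let every sequence in `S`, each term of which is moved by an automorphism of the core that
maps `S` onto `S` and fixes the earlier terms, have length at most `l`. If `G` has at least
`(4 l (log₂ l + 4) + 1) ^ 2 + 2` endpoints, then `G` is determined by its endpoint deck. -/
theorem result (l n m : ℕ) (G : SimpleGraph (Fin n)) (H : SimpleGraph (Fin m))
    (hc : ∀ v, ∃ x ∈ core G, G.Reachable v x)
    (hl : ∀ S : Set (core G), SplitPrime (G.induce (core G)) S →
      ∀ (r : ℕ) (x : Fin r → core G), (∀ i, x i ∈ S) →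
        (∀ i, ∃ g : G.induce (core G) ≃g G.induce (core G),
          g '' S = S ∧ (∀ j < i, g (x j) = x j) ∧ g (x i) ≠ x i) → r ≤ l)
    (hk : (4 * l * (Nat.log 2 l + 4) + 1) ^ 2 + 2 ≤ {v | ∃! w, G.Adj v w}.ncard)
    (σ : {v // ∃! w, G.Adj v w} ≃ {v // ∃! w, H.Adj v w})
    (hσ : ∀ v, Nonempty (G.induce {v.1}ᶜ ≃g H.induce {(σ v).1}ᶜ)) : Nonempty (G ≃g H) :=
  Pool.Agent.Lib.MP_528c50_co.Cs.main₃ l hc hl hk σ hσ

open Pool.Agent.Lib.MP_528c50_co.Cs (Prm)

/-- The case in which only the symmetry inside the blocks of the core is bounded: sequences of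
vertices no two of which are separated by a third vertex. -/
theorem blocks (l n m : ℕ) (G : SimpleGraph (Fin n)) (H : SimpleGraph (Fin m))
    (hc : ∀ v, ∃ x ∈ core G, G.Reachable v x)
    (hl : ∀ (r : ℕ) (x : Fin r → core G),
      (∀ i j w, w ≠ x i → w ≠ x j → ∃ p : (G.induce (core G)).Walk (x i) (x j), w ∉ p.support) →
      (∀ i, ∃ g : G.induce (core G) ≃g G.induce (core G),
        (∀ j < i, g (x j) = x j) ∧ g (x i) ≠ x i) → r ≤ l)
    (hk : (4 * l * (Nat.log 2 l + 4) + 1) ^ 2 + 2 ≤ {v | ∃! w, G.Adj v w}.ncard)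
    (σ : {v // ∃! w, G.Adj v w} ≃ {v // ∃! w, H.Adj v w})
    (hσ : ∀ v, Nonempty (G.induce {v.1}ᶜ ≃g H.induce {(σ v).1}ᶜ)) : Nonempty (G ≃g H) :=
  result l n m G H hc (fun _ hS r x hx hg => hl r x (fun i j => Prm.insep hS (hx i) (hx j))
    fun i => (hg i).imp fun _ a => a.2) hk σ hσ

/-- Distance-hereditary cores (the vertices of every walk contain a shortest walk between its
ends): three endpoints suffice. -/
theorem distanceHereditary (n m : ℕ) (G : SimpleGraph (Fin n)) (H : SimpleGraph (Fin m))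
    (hc : ∀ v, ∃ x ∈ core G, G.Reachable v x)
    (hd : ∀ u v (p : (G.induce (core G)).Walk u v), ∃ q : (G.induce (core G)).Walk u v,
      q.length = (G.induce (core G)).dist u v ∧ ∀ z ∈ q.support, z ∈ p.support)
    (hk : 3 ≤ {v | ∃! w, G.Adj v w}.ncard)
    (σ : {v // ∃! w, G.Adj v w} ≃ {v // ∃! w, H.Adj v w})
    (hσ : ∀ v, Nonempty (G.induce {v.1}ᶜ ≃g H.induce {(σ v).1}ᶜ)) : Nonempty (G ≃g H) :=
  result 0 n m G H hc (fun _ hS => (Prm.not_dh hS
    (Pool.Agent.Lib.MP_528c50_co.Cs.dh_of_dist hd)).elim) (by simpa using hk) σ hσ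

/-- Cores that are interval graphs: 291 endpoints suffice. -/
theorem interval (n m : ℕ) (G : SimpleGraph (Fin n)) (H : SimpleGraph (Fin m))
    (hc : ∀ v, ∃ x ∈ core G, G.Reachable v x) (lo hi : core G → ℝ) (h0 : ∀ a, lo a ≤ hi a)
    (hX : ∀ a b : core G, G.Adj a b ↔ a ≠ b ∧ lo a ≤ hi b ∧ lo b ≤ hi a)
    (hk : 291 ≤ {v | ∃! w, G.Adj v w}.ncard)
    (σ : {v // ∃! w, G.Adj v w} ≃ {v // ∃! w, H.Adj v w})
    (hσ : ∀ v, Nonempty (G.induce {v.1}ᶜ ≃g H.induce {(σ v).1}ᶜ)) : Nonempty (G ≃g H) :=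
  result 1 n m G H hc (fun _ hS => Prm.interval hS h0 hX) (by simpa using hk) σ hσ

/-- Cores that are permutation graphs: 3723 endpoints suffice. -/
theorem permutation (n m : ℕ) (G : SimpleGraph (Fin n)) (H : SimpleGraph (Fin m))
    (hc : ∀ v, ∃ x ∈ core G, G.Reachable v x) (p q : core G → ℝ) (hp : Function.Injective p)
    (hq : Function.Injective q)
    (hX : ∀ a b : core G, G.Adj a b ↔ p a < p b ∧ q b < q a ∨ p b < p a ∧ q a < q b)
    (hk : 3723 ≤ {v | ∃! w, G.Adj v w}.ncard)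
    (σ : {v // ∃! w, G.Adj v w} ≃ {v // ∃! w, H.Adj v w})
    (hσ : ∀ v, Nonempty (G.induce {v.1}ᶜ ≃g H.induce {(σ v).1}ᶜ)) : Nonempty (G ≃g H) :=
  result 3 n m G H hc (fun _ hS => Prm.perm hS hp hq hX)
    (by rwa [show Nat.log 2 3 = 1 by norm_num]) σ hσ

end Pool.Agent.Results.MP_528c50_co.SplitSymmetry
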