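import Pool.Agent.Lib.MP_528c50_co.Main

/-!
# Subcubic bipartite graphs that the endpoint deck does not determine
-/

namespace Pool.Agent.Results.MP_528c50_co.Subcubic

/-- For every `k ≥ 3` there are two finite connected bipartite graphs of maximum degree at most
three, the first with exactly `k` endpoints, with the same endpoint deck, that are not
isomorphic. -/
theorem result (k : ℕ) (hk : 3 ≤ k) : ∃ (n : ℕ) (G H : SimpleGraph (Fin n)),
    (G.Connected ∧ G.Colorable 2 ∧ ∀ v, (G.neighborSet v).ncard ≤ 3) ∧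
    (H.Connected ∧ H.Colorable 2 ∧ ∀ v, (H.neighborSet v).ncard ≤ 3) ∧
    {v | ∃! w, G.Adj v w}.ncard = k ∧
    (∃ σ : {v // ∃! w, G.Adj v w} ≃ {v // ∃! w, H.Adj v w},
      ∀ v, Nonempty (G.induce {v.1}ᶜ ≃g H.induce {(σ v).1}ᶜ)) ∧
    IsEmpty (G ≃g H) :=
  ⟨_, Pool.Agent.Lib.MP_528c50_co.main k hk⟩

end Pool.Agent.Results.MP_528c50_co.Subcubic
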